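import Mathlib

/-!
# A normal lattice polytope whose reduced degrees are exactly `1` and `3`

The simplex `P ⊆ ℝ⁵` with the vertices `0`, `(7,-1,-1,0,0)`, `(0,1,0,0,0)`, `(0,0,1,0,0)`,
`(0,0,0,7,0)`, `(0,0,0,0,7)` is normal and has interior lattice points. Its int* degree is `3`, but
no lattice point of any `N P°` has the reduced degree `2`.
-/

set_option autoImplicit false

open Pointwise

namespace Pool.Agent.Results.MP_751e6a_co.DegreeGap

variable {n : ℕ}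

/-- `x` is a lattice point: all its coordinates are integers. -/
def IsLat (x : Fin n → ℝ) : Prop := ∃ z : Fin n → ℤ, x = fun i => (z i : ℝ)

/-- `P` is a lattice polytope of dimension `n`: the convex hull of finitely many lattice points,
with a nonempty interior. -/
def IsLatticePolytope (P : Set (Fin n → ℝ)) : Prop :=
  (∃ V : Finset (Fin n → ℝ), (∀ v ∈ V, IsLat v) ∧ P = convexHull ℝ (V : Set (Fin n → ℝ))) ∧
    (interior P).Nonempty

/-- `P` is normal: for `N ≥ 2` every lattice point of `N P` is a sum of `N` lattice points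
of `P`. -/
def IsNormal (P : Set (Fin n → ℝ)) : Prop :=
  ∀ N : ℕ, 2 ≤ N → ∀ x : Fin n → ℝ, IsLat x → x ∈ (N : ℝ) • P →
    ∃ f : Fin N → (Fin n → ℝ), (∀ i, IsLat (f i) ∧ f i ∈ P) ∧ x = ∑ i, f i

/-- `r` is the reduced `P`-degree of `a ∈ N P°`: the least `r` with `1 ≤ r ≤ N` such that
`a = a₀ + a'` with lattice points `a₀ ∈ r P°` and `a' ∈ (N - r) P`. -/
def IsReducedDegree (P : Set (Fin n → ℝ)) (N : ℕ) (a : Fin n → ℝ) (r : ℕ) : Prop :=
  IsLeast {r : ℕ | 1 ≤ r ∧ r ≤ N ∧ ∃ a₀ a' : Fin n → ℝ, IsLat a₀ ∧ IsLat a' ∧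
    a₀ ∈ (r : ℝ) • interior P ∧ a' ∈ ((N - r : ℕ) : ℝ) • P ∧ a = a₀ + a'} r

/-- The set of the reduced degrees of all the lattice points of all `N P°`, `N ≥ 1`. -/
def attained (P : Set (Fin n → ℝ)) : Set ℕ :=
  {r | ∃ N : ℕ, 1 ≤ N ∧ ∃ a : Fin n → ℝ, IsLat a ∧ a ∈ (N : ℝ) • interior P ∧
    IsReducedDegree P N a r}

/-- The vertices of the simplex. -/
noncomputable def V : Finset (Fin 5 → ℝ) :=
  {![0, 0, 0, 0, 0], ![7, -1, -1, 0, 0], ![0, 1, 0, 0, 0], ![0, 0, 1, 0, 0], ![0, 0, 0, 7, 0],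
    ![0, 0, 0, 0, 7]}

/-- The simplex. -/
noncomputable def P : Set (Fin 5 → ℝ) := convexHull ℝ (V : Set (Fin 5 → ℝ))

/-- The inequalities of `N P`. -/
def H (N : ℝ) : Set (Fin 5 → ℝ) :=
  {v | 0 ≤ v 0 ∧ 0 ≤ v 0 + 7 * v 1 ∧ 0 ≤ v 0 + 7 * v 2 ∧ 0 ≤ v 3 ∧ 0 ≤ v 4 ∧
    3 * v 0 + 7 * v 1 + 7 * v 2 + v 3 + v 4 ≤ 7 * N}

/-- The inequalities of `N P°`. -/
def H' (N : ℝ) : Set (Fin 5 → ℝ) :=
  {v | 0 < v 0 ∧ 0 < v 0 + 7 * v 1 ∧ 0 < v 0 + 7 * v 2 ∧ 0 < v 3 ∧ 0 < v 4 ∧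
    3 * v 0 + 7 * v 1 + 7 * v 2 + v 3 + v 4 < 7 * N}

theorem P_eq : P = H 1 := by
  apply Set.Subset.antisymm
  · refine convexHull_min ?_ ?_
    · intro v hv
      simp only [V, Finset.coe_insert, Finset.coe_singleton, Set.mem_insert_iff,
        Set.mem_singleton_iff] at hv
      rcases hv with rfl | rfl | rfl | rfl | rfl | rfl <;> simp [H] <;> norm_num
    · intro x hx y hy a b ha hb hab
      obtain ⟨x1, x2, x3, x4, x5, x6⟩ := hx
      obtain ⟨y1, y2, y3, y4, y5, y6⟩ := hy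
      refine ⟨?_, ?_, ?_, ?_, ?_, ?_⟩ <;>
        simp only [Pi.add_apply, Pi.smul_apply, smul_eq_mul]
      · nlinarith [mul_nonneg ha x1, mul_nonneg hb y1]
      · nlinarith [mul_nonneg ha x2, mul_nonneg hb y2]
      · nlinarith [mul_nonneg ha x3, mul_nonneg hb y3]
      · nlinarith [mul_nonneg ha x4, mul_nonneg hb y4]
      · nlinarith [mul_nonneg ha x5, mul_nonneg hb y5]
      · nlinarith [mul_le_mul_of_nonneg_left x6 ha, mul_le_mul_of_nonneg_left y6 hb]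
  · rintro v ⟨h1, h2, h3, h4, h5, h6⟩
    have hc := convex_convexHull ℝ (V : Set (Fin 5 → ℝ))
    have hv : ∀ w ∈ V, w ∈ convexHull ℝ (V : Set (Fin 5 → ℝ)) := fun w hw =>
      subset_convexHull ℝ _ hw
    let W : Fin 6 → (Fin 5 → ℝ) := ![![0, 0, 0, 0, 0], ![7, -1, -1, 0, 0], ![0, 1, 0, 0, 0],
      ![0, 0, 1, 0, 0], ![0, 0, 0, 7, 0], ![0, 0, 0, 0, 7]]
    let c : Fin 6 → ℝ := ![(7 - (3 * v 0 + 7 * v 1 + 7 * v 2 + v 3 + v 4)) / 7, v 0 / 7,
      (v 0 + 7 * v 1) / 7, (v 0 + 7 * v 2) / 7, v 3 / 7, v 4 / 7]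
    have key : v = ∑ i, c i • W i := by
      rw [Fin.sum_univ_six]
      ext j
      fin_cases j <;> simp [c, W] <;> ring
    rw [key]
    refine hc.sum_mem ?_ ?_ ?_
    · intro i _
      fin_cases i <;> simp [c] <;> linarith
    · rw [Fin.sum_univ_six]
      simp [c]
      ring
    · intro i _
      apply hv
      fin_cases i <;> simp [W, V]

/-- The interior of a half space. -/
theorem interior_half (f : (Fin 5 → ℝ) →L[ℝ] ℝ) (hf : ∃ v, f v ≠ 0) (c : ℝ) :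
    interior {v | c ≤ f v} = {v | c < f v} := by
  have hs : Function.Surjective f := by
    obtain ⟨v, hv⟩ := hf
    intro y
    refine ⟨(y / f v) • v, ?_⟩
    rw [map_smul, smul_eq_mul, div_mul_cancel₀ _ hv]
  have h1 : {v | c ≤ f v} = f ⁻¹' (Set.Ici c) := rfl
  have h2 : {v | c < f v} = f ⁻¹' (Set.Ioi c) := rfl
  rw [h1, h2, f.interior_preimage hs, interior_Ici]

/-- The linear functional with the given coefficients. -/
noncomputable def fn (c : Fin 5 → ℝ) : (Fin 5 → ℝ) →L[ℝ] ℝ :=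
  ∑ i, c i • ContinuousLinearMap.proj i

theorem fn_apply (c v : Fin 5 → ℝ) : fn c v = ∑ i, c i * v i := by
  simp [fn]

theorem interior_P : interior P = H' 1 := by
  rw [P_eq]
  apply Set.Subset.antisymm
  · intro v hv
    have key : ∀ (c : Fin 5 → ℝ) (t : ℝ), (∃ w, fn c w ≠ 0) → H 1 ⊆ {w | t ≤ fn c w} →
        t < fn c v := by
      intro c t h1 h2
      have h3 := interior_mono h2 hv
      rw [interior_half _ h1] at h3
      exact h3
    refine ⟨?_, ?_, ?_, ?_, ?_, ?_⟩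
    · have := key ![1, 0, 0, 0, 0] 0 ⟨![1, 0, 0, 0, 0], by simp [fn_apply, Fin.sum_univ_five]⟩
        (by
          rintro w ⟨h1, h2, h3, h4, h5, h6⟩
          simp [fn_apply, Fin.sum_univ_five]
          linarith)
      simpa [fn_apply, Fin.sum_univ_five] using this
    · have := key ![1, 7, 0, 0, 0] 0 ⟨![1, 0, 0, 0, 0], by simp [fn_apply, Fin.sum_univ_five]⟩
        (by
          rintro w ⟨h1, h2, h3, h4, h5, h6⟩
          simp [fn_apply, Fin.sum_univ_five]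
          linarith)
      simpa [fn_apply, Fin.sum_univ_five] using this
    · have := key ![1, 0, 7, 0, 0] 0 ⟨![1, 0, 0, 0, 0], by simp [fn_apply, Fin.sum_univ_five]⟩
        (by
          rintro w ⟨h1, h2, h3, h4, h5, h6⟩
          simp [fn_apply, Fin.sum_univ_five]
          linarith)
      simpa [fn_apply, Fin.sum_univ_five] using this
    · have := key ![0, 0, 0, 1, 0] 0 ⟨![0, 0, 0, 1, 0], by simp [fn_apply, Fin.sum_univ_five]⟩
        (by
          rintro w ⟨h1, h2, h3, h4, h5, h6⟩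
          simp [fn_apply, Fin.sum_univ_five]
          linarith)
      simpa [fn_apply, Fin.sum_univ_five] using this
    · have := key ![0, 0, 0, 0, 1] 0 ⟨![0, 0, 0, 0, 1], by simp [fn_apply, Fin.sum_univ_five]⟩
        (by
          rintro w ⟨h1, h2, h3, h4, h5, h6⟩
          simp [fn_apply, Fin.sum_univ_five]
          linarith)
      simpa [fn_apply, Fin.sum_univ_five] using this
    · have := key ![-3, -7, -7, -1, -1] (-7)
        ⟨![1, 0, 0, 0, 0], by simp [fn_apply, Fin.sum_univ_five]⟩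
        (by
          rintro w ⟨h1, h2, h3, h4, h5, h6⟩
          simp [fn_apply, Fin.sum_univ_five]
          linarith)
      simp [fn_apply, Fin.sum_univ_five] at this
      linarith
  · refine interior_maximal ?_ ?_
    · rintro v ⟨h1, h2, h3, h4, h5, h6⟩
      exact ⟨h1.le, h2.le, h3.le, h4.le, h5.le, h6.le⟩
    · have e : H' 1 = {v : Fin 5 → ℝ | 0 < v 0} ∩ ({v | 0 < v 0 + 7 * v 1} ∩
          ({v | 0 < v 0 + 7 * v 2} ∩ ({v | 0 < v 3} ∩ ({v | 0 < v 4} ∩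
          {v | 3 * v 0 + 7 * v 1 + 7 * v 2 + v 3 + v 4 < 7 * 1})))) := by
        ext v
        rfl
      rw [e]
      refine IsOpen.inter ?_ (IsOpen.inter ?_ (IsOpen.inter ?_ (IsOpen.inter ?_
        (IsOpen.inter ?_ ?_))))
      · exact isOpen_lt continuous_const (by fun_prop)
      · exact isOpen_lt continuous_const (by fun_prop)
      · exact isOpen_lt continuous_const (by fun_prop)
      · exact isOpen_lt continuous_const (by fun_prop)
      · exact isOpen_lt continuous_const (by fun_prop)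
      · exact isOpen_lt (by fun_prop) continuous_const

theorem mem_smul_P (N : ℕ) (v : Fin 5 → ℝ) : v ∈ (N : ℝ) • P ↔ v ∈ H N := by
  rcases Nat.eq_zero_or_pos N with rfl | hN
  · have hne : P.Nonempty := by
      rw [P_eq]
      exact ⟨0, by simp [H]⟩
    rw [Nat.cast_zero, Set.zero_smul_set hne]
    constructor
    · intro h
      rw [Set.mem_zero] at h
      subst h
      simp [H]
    · rintro ⟨h1, h2, h3, h4, h5, h6⟩
      rw [Set.mem_zero]
      ext j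
      fin_cases j <;> simp <;> linarith
  · have hN' : (0 : ℝ) < N := by exact_mod_cast hN
    rw [Set.mem_smul_set, P_eq]
    constructor
    · rintro ⟨w, ⟨h1, h2, h3, h4, h5, h6⟩, rfl⟩
      refine ⟨?_, ?_, ?_, ?_, ?_, ?_⟩ <;> simp only [Pi.smul_apply, smul_eq_mul]
      · exact mul_nonneg hN'.le h1
      · nlinarith [mul_nonneg hN'.le h2]
      · nlinarith [mul_nonneg hN'.le h3]
      · exact mul_nonneg hN'.le h4
      · exact mul_nonneg hN'.le h5
      · nlinarith [mul_le_mul_of_nonneg_left h6 hN'.le]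
    · rintro ⟨h1, h2, h3, h4, h5, h6⟩
      have hi : (0 : ℝ) ≤ (N : ℝ)⁻¹ := by positivity
      have hi1 : (N : ℝ)⁻¹ * N = 1 := inv_mul_cancel₀ hN'.ne'
      refine ⟨(N : ℝ)⁻¹ • v, ?_, smul_inv_smul₀ hN'.ne' v⟩
      refine ⟨?_, ?_, ?_, ?_, ?_, ?_⟩ <;> simp only [Pi.smul_apply, smul_eq_mul]
      · exact mul_nonneg hi h1
      · nlinarith [mul_nonneg hi h2]
      · nlinarith [mul_nonneg hi h3]
      · exact mul_nonneg hi h4
      · exact mul_nonneg hi h5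
      · nlinarith [mul_le_mul_of_nonneg_left h6 hi]

theorem mem_smul_int (N : ℕ) (hN : 1 ≤ N) (v : Fin 5 → ℝ) :
    v ∈ (N : ℝ) • interior P ↔ v ∈ H' N := by
  have hN' : (0 : ℝ) < N := by exact_mod_cast hN
  rw [Set.mem_smul_set, interior_P]
  constructor
  · rintro ⟨w, ⟨h1, h2, h3, h4, h5, h6⟩, rfl⟩
    refine ⟨?_, ?_, ?_, ?_, ?_, ?_⟩ <;> simp only [Pi.smul_apply, smul_eq_mul]
    · exact mul_pos hN' h1
    · nlinarith [mul_pos hN' h2]
    · nlinarith [mul_pos hN' h3]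
    · exact mul_pos hN' h4
    · exact mul_pos hN' h5
    · nlinarith [mul_lt_mul_of_pos_left h6 hN']
  · rintro ⟨h1, h2, h3, h4, h5, h6⟩
    have hi : (0 : ℝ) < (N : ℝ)⁻¹ := by positivity
    have hi1 : (N : ℝ)⁻¹ * N = 1 := inv_mul_cancel₀ hN'.ne'
    refine ⟨(N : ℝ)⁻¹ • v, ?_, smul_inv_smul₀ hN'.ne' v⟩
    refine ⟨?_, ?_, ?_, ?_, ?_, ?_⟩ <;> simp only [Pi.smul_apply, smul_eq_mul]
    · exact mul_pos hi h1
    · nlinarith [mul_pos hi h2]
    · nlinarith [mul_pos hi h3]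
    · exact mul_pos hi h4
    · exact mul_pos hi h5
    · nlinarith [mul_lt_mul_of_pos_left h6 hi]

/-- The inequalities of `N P` for an integer point. -/
def IH (N : ℕ) (z : Fin 5 → ℤ) : Prop :=
  0 ≤ z 0 ∧ 0 ≤ z 0 + 7 * z 1 ∧ 0 ≤ z 0 + 7 * z 2 ∧ 0 ≤ z 3 ∧ 0 ≤ z 4 ∧
    3 * z 0 + 7 * z 1 + 7 * z 2 + z 3 + z 4 ≤ 7 * N

/-- The inequalities of `N P°` for an integer point. -/
def IH' (N : ℕ) (z : Fin 5 → ℤ) : Prop :=
  0 < z 0 ∧ 0 < z 0 + 7 * z 1 ∧ 0 < z 0 + 7 * z 2 ∧ 0 < z 3 ∧ 0 < z 4 ∧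
    3 * z 0 + 7 * z 1 + 7 * z 2 + z 3 + z 4 < 7 * N

/-- The real point of an integer point. -/
def toR (z : Fin 5 → ℤ) : Fin 5 → ℝ := fun i => (z i : ℝ)

theorem toR_H (N : ℕ) (z : Fin 5 → ℤ) : toR z ∈ H N ↔ IH N z := by
  simp only [H, IH, toR, Set.mem_ofPred_eq]
  norm_cast

theorem toR_H' (N : ℕ) (z : Fin 5 → ℤ) : toR z ∈ H' N ↔ IH' N z := by
  simp only [H', IH', toR, Set.mem_ofPred_eq]
  norm_cast

theorem isLat_iff (x : Fin 5 → ℝ) : IsLat x ↔ ∃ z, x = toR z := Iff.rfl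

theorem toR_add (z w : Fin 5 → ℤ) : toR (z + w) = toR z + toR w := by
  ext i; simp [toR]

theorem toR_inj {z w : Fin 5 → ℤ} (h : toR z = toR w) : z = w := by
  ext i
  have := congrFun h i
  simp only [toR] at this
  exact_mod_cast this

/-- A lattice point of degree one can be split off. -/
theorem step (N : ℕ) (z : Fin 5 → ℤ) (h : IH (N + 1) z) : ∃ s, IH 1 s ∧ IH N (z - s) := by
  unfold IH at h
  push_cast at h
  by_cases h1 : 7 ≤ z 0
  · refine ⟨![7, -1, -1, 0, 0], ?_, ?_⟩ <;> simp [IH] <;> omega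
  by_cases h2 : 7 ≤ z 0 + 7 * z 1
  · refine ⟨![0, 1, 0, 0, 0], ?_, ?_⟩ <;> simp [IH] <;> omega
  by_cases h3 : 7 ≤ z 0 + 7 * z 2
  · refine ⟨![0, 0, 1, 0, 0], ?_, ?_⟩ <;> simp [IH] <;> omega
  have e1 : z 1 = 0 := by omega
  have e2 : z 2 = 0 := by omega
  rw [e1, e2] at h
  by_cases h4 : 7 * (N + 1 : ℤ) - 3 * z 0 ≥ 7
  · by_cases h5 : 7 ≤ z 3
    · refine ⟨![0, 0, 0, 7, 0], ?_, ?_⟩ <;> simp [IH, e1, e2] <;> omega
    · by_cases h6 : 7 ≤ z 3 + z 4
      · refine ⟨![0, 0, 0, z 3, 7 - z 3], ?_, ?_⟩ <;> simp [IH, e1, e2] <;> omega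
      · refine ⟨![0, 0, 0, z 3, z 4], ?_, ?_⟩ <;> simp [IH, e1, e2] <;> omega
  by_cases hN : N = 0
  · subst hN
    refine ⟨z, ?_, ?_⟩
    · unfold IH; rw [e1, e2]; omega
    · simp [IH]
  by_cases h5 : 1 ≤ z 3
  · refine ⟨![2, 0, 0, 1, 0], ?_, ?_⟩ <;> simp [IH, e1, e2] <;> omega
  by_cases h6 : 1 ≤ z 4
  · refine ⟨![2, 0, 0, 0, 1], ?_, ?_⟩ <;> simp [IH, e1, e2] <;> omega
  · refine ⟨![2, 0, 0, 0, 0], ?_, ?_⟩ <;> simp [IH, e1, e2] <;> omega

theorem split (N : ℕ) : ∀ z : Fin 5 → ℤ, IH N z →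
    ∃ f : Fin N → (Fin 5 → ℤ), (∀ i, IH 1 (f i)) ∧ z = ∑ i, f i := by
  induction N with
  | zero =>
    intro z h
    refine ⟨fun i => i.elim0, fun i => i.elim0, ?_⟩
    unfold IH at h
    push_cast at h
    ext j
    fin_cases j <;> simp <;> omega
  | succ N ih =>
    intro z h
    obtain ⟨s, hs, h'⟩ := step N z h
    obtain ⟨f, hf, hz⟩ := ih _ h'
    refine ⟨Fin.cons s f, ?_, ?_⟩
    · intro i
      refine Fin.cases ?_ ?_ i
      · simpa using hs
      · intro j; simpa using hf j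
    · rw [Fin.sum_univ_succ]
      simp only [Fin.cons_zero, Fin.cons_succ]
      rw [← hz]
      abel

/-- For `N ≥ 2`, `N ≠ 3` a lattice point of degree one can be split off an interior point such that
the rest is interior. -/
theorem step' (N : ℕ) (hN : 1 ≤ N) (hN2 : N ≠ 2) (z : Fin 5 → ℤ) (h : IH' (N + 1) z) :
    ∃ s, IH 1 s ∧ IH' N (z - s) := by
  unfold IH' at h
  push_cast at h
  by_cases h1 : 8 ≤ z 0
  · refine ⟨![7, -1, -1, 0, 0], ?_, ?_⟩ <;> simp [IH, IH'] <;> omega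
  by_cases h2 : 8 ≤ z 0 + 7 * z 1
  · refine ⟨![0, 1, 0, 0, 0], ?_, ?_⟩ <;> simp [IH, IH'] <;> omega
  by_cases h3 : 8 ≤ z 0 + 7 * z 2
  · refine ⟨![0, 0, 1, 0, 0], ?_, ?_⟩ <;> simp [IH, IH'] <;> omega
  have e1 : z 1 = 0 := by omega
  have e2 : z 2 = 0 := by omega
  rw [e1, e2] at h
  by_cases h4 : 7 * (N + 1 : ℤ) - 3 * z 0 ≥ 10
  · by_cases h5 : 8 ≤ z 3
    · refine ⟨![0, 0, 0, 7, 0], ?_, ?_⟩ <;> simp [IH, IH', e1, e2] <;> omega
    · by_cases h6 : 9 ≤ z 3 + z 4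
      · refine ⟨![0, 0, 0, z 3 - 1, 8 - z 3], ?_, ?_⟩ <;> simp [IH, IH', e1, e2] <;> omega
      · refine ⟨![0, 0, 0, z 3 - 1, z 4 - 1], ?_, ?_⟩ <;> simp [IH, IH', e1, e2] <;> omega
  by_cases h7 : 3 ≤ z 0
  · by_cases h5 : 2 ≤ z 3
    · refine ⟨![2, 0, 0, 1, 0], ?_, ?_⟩ <;> simp [IH, IH', e1, e2] <;> omega
    by_cases h6 : 2 ≤ z 4
    · refine ⟨![2, 0, 0, 0, 1], ?_, ?_⟩ <;> simp [IH, IH', e1, e2] <;> omega
    · refine ⟨![2, 0, 0, 0, 0], ?_, ?_⟩ <;> simp [IH, IH', e1, e2] <;> omega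
  · by_cases h5 : 5 ≤ z 3
    · refine ⟨![1, 0, 0, 4, 0], ?_, ?_⟩ <;> simp [IH, IH', e1, e2] <;> omega
    · by_cases h6 : 6 ≤ z 3 + z 4
      · refine ⟨![1, 0, 0, z 3 - 1, 5 - z 3], ?_, ?_⟩ <;> simp [IH, IH', e1, e2] <;> omega
      · refine ⟨![1, 0, 0, z 3 - 1, z 4 - 1], ?_, ?_⟩ <;> simp [IH, IH', e1, e2] <;> omega

theorem lattice_P : IsLatticePolytope P := by
  refine ⟨⟨V, ?_, rfl⟩, ?_⟩
  · intro v hv
    simp only [V, Finset.mem_insert, Finset.mem_singleton] at hv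
    rcases hv with rfl | rfl | rfl | rfl | rfl | rfl
    · exact ⟨![0, 0, 0, 0, 0], by ext j; fin_cases j <;> simp⟩
    · exact ⟨![7, -1, -1, 0, 0], by ext j; fin_cases j <;> simp⟩
    · exact ⟨![0, 1, 0, 0, 0], by ext j; fin_cases j <;> simp⟩
    · exact ⟨![0, 0, 1, 0, 0], by ext j; fin_cases j <;> simp⟩
    · exact ⟨![0, 0, 0, 7, 0], by ext j; fin_cases j <;> simp⟩
    · exact ⟨![0, 0, 0, 0, 7], by ext j; fin_cases j <;> simp⟩
  · rw [interior_P]
    refine ⟨![1, 0, 0, 1, 1], ?_⟩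
    simp [H']
    norm_num

theorem normal_P : IsNormal P := by
  rintro N - x ⟨z, rfl⟩ hx
  rw [mem_smul_P] at hx
  obtain ⟨f, hf, hz⟩ := split N z ((toR_H N z).mp hx)
  refine ⟨fun i => toR (f i), fun i => ⟨⟨f i, rfl⟩, ?_⟩, ?_⟩
  · have h1 := (toR_H 1 (f i)).mpr (hf i)
    rw [P_eq]
    simpa using h1
  · ext j
    rw [hz, Finset.sum_apply]
    simp [toR, Finset.sum_apply]

theorem IH_zero : IH 0 0 := by simp [IH]

/-- The simplex `P` is a normal lattice polytope of dimension `5` with an interior lattice point,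
and the reduced degrees of the lattice points of the `N P°` are exactly `1` and `3`. -/
theorem result : IsLatticePolytope P ∧ IsNormal P ∧ (∃ x ∈ interior P, IsLat x) ∧
    attained P = {1, 3} := by
  refine ⟨lattice_P, normal_P, ⟨toR ![1, 0, 0, 1, 1], ?_, ⟨_, rfl⟩⟩, ?_⟩
  · have h : toR ![1, 0, 0, 1, 1] ∈ H' ((1 : ℕ) : ℝ) := (toR_H' 1 _).mpr (by simp [IH'])
    rw [interior_P]
    simpa using h
  · ext r
    rw [Set.mem_insert_iff, Set.mem_singleton_iff]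
    constructor
    · rintro ⟨N, hN, a, -, -, ⟨hr1, hrN, a₀, a', ⟨z₀, rfl⟩, ⟨z', rfl⟩, h₀, h', rfl⟩, hleast⟩
      by_contra hr
      push Not at hr
      obtain ⟨k, rfl⟩ : ∃ k, r = k + 1 := ⟨r - 1, by omega⟩
      rw [mem_smul_int _ hr1] at h₀
      rw [mem_smul_P] at h'
      obtain ⟨s, hs, hs'⟩ := step' k (by omega) (by omega) z₀ ((toR_H' _ _).mp h₀)
      have hz' := (toR_H _ _).mp h'
      have hmem := hleast (a := k) ⟨by omega, by omega, toR (z₀ - s), toR (s + z'), ⟨_, rfl⟩,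
        ⟨_, rfl⟩, (mem_smul_int k (by omega) _).mpr ((toR_H' _ _).mpr hs'),
        (mem_smul_P _ _).mpr ((toR_H _ _).mpr ?_), ?_⟩
      · omega
      · unfold IH at hs hz' ⊢
        simp only [Pi.add_apply]
        rw [Nat.cast_sub (by omega : k ≤ N)]
        rw [Nat.cast_sub (by omega : k + 1 ≤ N)] at hz'
        push_cast at hz' hs
        omega
      · change toR z₀ + toR z' = _
        rw [← toR_add, ← toR_add]
        congr 1
        abel
    · rintro (rfl | rfl)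
      · have h1 : toR ![1, 0, 0, 1, 1] ∈ ((1 : ℕ) : ℝ) • interior P :=
          (mem_smul_int 1 le_rfl _).mpr ((toR_H' 1 _).mpr (by simp [IH']))
        refine ⟨1, le_rfl, toR ![1, 0, 0, 1, 1], ⟨_, rfl⟩, h1, ⟨le_rfl, le_rfl,
          toR ![1, 0, 0, 1, 1], toR 0, ⟨_, rfl⟩, ⟨_, rfl⟩, h1, ?_, ?_⟩, fun r hr => hr.1⟩
        · exact (mem_smul_P _ _).mpr ((toR_H _ _).mpr (by simpa using IH_zero))
        · rw [← toR_add, add_zero]
      · have h1 : toR ![6, 0, 0, 1, 1] ∈ ((3 : ℕ) : ℝ) • interior P :=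
          (mem_smul_int 3 (by norm_num) _).mpr ((toR_H' 3 _).mpr (by simp [IH']))
        refine ⟨3, by norm_num, toR ![6, 0, 0, 1, 1], ⟨_, rfl⟩, h1, ⟨by norm_num, le_rfl,
          toR ![6, 0, 0, 1, 1], toR 0, ⟨_, rfl⟩, ⟨_, rfl⟩, h1, ?_, ?_⟩, ?_⟩
        · exact (mem_smul_P _ _).mpr ((toR_H _ _).mpr (by simpa using IH_zero))
        · rw [← toR_add, add_zero]
        · rintro r ⟨hr1, hr3, a₀, a', ⟨z₀, rfl⟩, ⟨z', rfl⟩, h₀, h', he⟩
          rw [mem_smul_int _ hr1] at h₀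
          rw [mem_smul_P] at h'
          have h0 := (toR_H' _ _).mp h₀
          have h1' := (toR_H _ _).mp h'
          have he' : (![6, 0, 0, 1, 1] : Fin 5 → ℤ) = z₀ + z' := toR_inj (by rw [toR_add]; exact he)
          have e0 := congrFun he' 0
          have e1 := congrFun he' 1
          have e2 := congrFun he' 2
          have e3 := congrFun he' 3
          have e4 := congrFun he' 4
          simp at e0 e1 e2 e3 e4
          unfold IH' at h0
          unfold IH at h1'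
          rw [Nat.cast_sub hr3] at h1'
          push_cast at h1'
          omega

end Pool.Agent.Results.MP_751e6a_co.DegreeGap
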